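import Pool.Agent.MP_fcd29e_an.H11.CS

/-!
The superharmonic weight: gluing of the functions on the cells, on the hub and at infinity.
-/

set_option autoImplicit false

open Complex Set Filter Topology Metric Pool.Agent.MP_fcd29e_an.H11
open scoped ContDiff ComplexConjugate

namespace Pool.Agent.MP_fcd29e_an.H89

/-- Positive real roots. -/
theorem root (n : ℕ) (hn : n ≠ 0) (ρ : ℝ) (h : 0 < ρ) : ∃ R : ℝ, 0 < R ∧ R ^ n = ρ ∧
    ∀ s : ℂ, (‖s‖ < R ↔ ‖s ^ n‖ < ρ) ∧ (R ≤ ‖s‖ ↔ ρ ≤ ‖s ^ n‖) ∧ (‖s‖ = R → ‖s ^ n‖ = ρ) := by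
  refine ⟨ρ ^ ((n : ℝ)⁻¹), Real.rpow_pos_of_pos h _, Real.rpow_inv_natCast_pow h.le hn, fun s => ?_⟩
  have h0 : 0 ≤ ρ ^ ((n : ℝ)⁻¹) := (Real.rpow_pos_of_pos h _).le
  have h1 : (ρ ^ ((n : ℝ)⁻¹)) ^ n = ρ := Real.rpow_inv_natCast_pow h.le hn
  rw [norm_pow]
  refine ⟨?_, ?_, fun e => by rw [e, h1]⟩
  · rw [← pow_lt_pow_iff_left₀ (norm_nonneg s) h0 hn, h1]
  · rw [← pow_le_pow_iff_left₀ h0 (norm_nonneg s) hn, h1]

theorem root_lt {n : ℕ} {R R' : ℝ} (h' : 0 < R') (h : R ^ n < R' ^ n) : R < R' :=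
  lt_of_pow_lt_pow_left₀ n h'.le h

theorem tp_norm {m : ℕ} (j : Fin m) : ‖tp j‖ ≤ (m : ℝ) - 1 := by
  have h : ((j : ℕ) : ℝ) + 1 ≤ m := by exact_mod_cast j.2
  simp only [tp, norm_mul, norm_I, one_mul, Complex.norm_natCast]
  linarith

theorem tp_dist {m : ℕ} (i j : Fin m) (h : i ≠ j) : 1 ≤ ‖tp j - tp i‖ := by
  have e : tp j - tp i = I * (((j : ℕ) : ℤ) - ((i : ℕ) : ℤ) : ℤ) := by
    simp only [tp]; push_cast; ring
  rw [e, norm_mul, norm_I, one_mul, Complex.norm_intCast]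
  have h2 : (((j : ℕ) : ℤ) - ((i : ℕ) : ℤ) : ℤ) ≠ 0 := by
    intro h3
    apply h
    apply Fin.ext
    omega
  exact_mod_cast Int.one_le_abs h2

theorem cellB_mono {ι : Type} [Fintype ι] {c S η Cs Cs' : ℝ} {w : ι → ℂ} {f : ℂ × V ι → ℝ}
    (h : CellB c S w η Cs f) (hle : Cs ≤ Cs') : CellB c S w η Cs' f where
  sm := h.sm
  bd := fun ρ e h0 h1 he x hx hr => by
    obtain ⟨a, b, d⟩ := h.bd ρ e h0 h1 he x hx hr
    have : Cs * (1 - ρ) ≤ Cs' * (1 - ρ) := mul_le_mul_of_nonneg_right hle (by linarith)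
    exact ⟨by linarith, by linarith, d⟩

theorem lap_congr (hHS : SHS) {f g : ℂ → ℝ} {z : ℂ} (h : f =ᶠ[𝓝 z] g) : lap f z = lap g z := by
  simp only [lap, lev, hHS.congr ℂ f g z _ h]

theorem lap_cmul (hHS : SHS) {f : ℂ → ℝ} {z : ℂ} (c : ℝ) (h : ContDiffAt ℝ 2 f z) :
    lap (fun y => c * f y) z = c * lap f z := by
  simp only [lap, lev, (hHS.cmul ℂ f c z _ h).1]
  ring

theorem two_le : (2 : WithTop ℕ∞) ≤ ∞ := by
  exact WithTop.coe_le_coe.2 (le_top : (2 : ℕ∞) ≤ ⊤)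

/-- The properties of a weight at one point. -/
def Wt {ι : Type} [Fintype ι] (f : ℂ × V ι → ℝ) (s : ℂ) (x : V ι) : Prop :=
  ContDiffAt ℝ ∞ f (s, x) ∧ 0 < f (s, x) ∧ lap (fun y => f (y, x)) s < 0 ∧
    ∀ l : ℝ, 0 < l → l ^ 20 * f (s, (l : ℂ) • x) = f (s, x)

/-- What is used about the function on the hub. -/
structure Hb {r : ℕ} (m : ℕ) (ϱ T D : ℝ) (ph : ℂ × (Fin r → ℂ) → ℝ) : Prop where
  pos : 0 < ϱ
  sm : ∀ (t : ℂ) (p : Fin r → ℂ), (∀ j : Fin m, t ≠ tp j) → p ≠ 0 → ContDiffAt ℝ ∞ ph (t, p) ∧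
    ∀ a : ℝ, 0 < a → a ^ 20 * ph (t, (a : ℂ) • p) = ph (t, p)
  ps : ∀ (t : ℂ) (p : Fin r → ℂ), (∀ j : Fin m, ϱ ≤ ‖t - tp j‖) → ‖t‖ ≤ T → p ≠ 0 → 0 < ph (t, p)
  lp : ∀ (t : ℂ → ℂ) (p : ℂ → Fin r → ℂ) (z : ℂ), AnalyticAt ℂ t z → AnalyticAt ℂ p z →
    (∀ j : Fin m, ϱ ≤ ‖t z - tp j‖) → ‖t z‖ ≤ T → 1 / 4 ≤ nsq (p z) → nsq (p z) ≤ 4 →
    deriv t z ≠ 0 → ‖deriv p z‖ ≤ D * ‖deriv t z‖ → lap (fun y => ph (t y, p y)) z < 0

theorem ne_of_nsq {r : ℕ} {M : EV (Fin r)} {x : V (Fin r)} {a : ℝ}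
    (h : 1 / 4 ≤ nsq (M ((a : ℂ) • x)).2.2) : (M x).2.2 ≠ 0 := by
  intro h0
  rw [map_smul, Prod.smul_snd, Prod.smul_snd, h0, smul_zero] at h
  simp [nsq] at h
  linarith

theorem Hb.ne {r m : ℕ} {ϱ T D : ℝ} {ph : ℂ × (Fin r → ℂ) → ℝ} (H : Hb m ϱ T D ph) {t : ℂ}
    (h : ∀ j : Fin m, ϱ ≤ ‖t - tp j‖) (j : Fin m) : t ≠ tp j := by
  intro e
  have := h j
  rw [e, sub_self, norm_zero] at this
  linarith [H.pos]

/-- The function on the hub along a holomorphic frame. -/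
theorem neck (hHS : SHS) {r m : ℕ} {ϱ T D : ℝ} {ph : ℂ × (Fin r → ℂ) → ℝ} (H : Hb m ϱ T D ph)
    (t : ℂ → ℂ) (M : ℂ → EV (Fin r)) (s : ℂ) (x : V (Fin r)) (ht : AnalyticAt ℂ t s)
    (hM : AnalyticAt ℂ M s) (h1 : ∀ j : Fin m, ϱ ≤ ‖t s - tp j‖) (h2 : ‖t s‖ ≤ T)
    (h3 : deriv t s ≠ 0) (a : ℝ) (ha : 0 < a) (p : ℂ → Fin r → ℂ)
    (hp : p = fun y => (M y ((a : ℂ) • x)).2.2) (hpa : AnalyticAt ℂ p s) (n1 : 1 / 4 ≤ nsq (p s))
    (n2 : nsq (p s) ≤ 4) (n3 : ‖deriv p s‖ ≤ D * ‖deriv t s‖) :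
    (M s x).2.2 ≠ 0 ∧ Wt (fun q => ph (t q.1, (M q.1 q.2).2.2)) s x := by
  have hne : (M s x).2.2 ≠ 0 := ne_of_nsq (a := a) (by simpa only [hp] using n1)
  have hps : p s ≠ 0 := by
    intro h0
    rw [h0] at n1
    simp [nsq] at n1
    linarith
  have htp := H.ne h1
  refine ⟨hne, ?_, H.ps _ _ h1 h2 hne, ?_, fun l hl => ?_⟩
  · have i1 : AnalyticAt ℂ (fun q : ℂ × V (Fin r) => t q.1) (s, x) :=
      AnalyticAt.comp (g := t) (f := Prod.fst) ht analyticAt_fst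
    have i2 : AnalyticAt ℂ (fun q : ℂ × V (Fin r) => M q.1) (s, x) :=
      AnalyticAt.comp (g := M) (f := Prod.fst) hM analyticAt_fst
    have i3 : ContDiffAt ℂ ∞ (fun q : ℂ × V (Fin r) => (t q.1, (M q.1 q.2).2.2)) (s, x) :=
      i1.contDiffAt.prodMk (i2.contDiffAt.clm_apply contDiffAt_snd).snd.snd
    exact ContDiffAt.comp (g := ph) (s, x) (H.sm _ _ htp hne).1 (i3.restrict_scalars ℝ)
  · have g2 : ContDiffAt ℝ 2 (fun y => ph (t y, p y)) s :=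
      ContDiffAt.comp (g := ph) s ((H.sm _ _ htp hps).1.of_le two_le)
        ((ht.prod hpa).contDiffAt.restrict_scalars ℝ)
    have e1 : ∀ᶠ y in 𝓝 s, ∀ j : Fin m, t y ≠ tp j :=
      eventually_all.2 fun j => ht.continuousAt.eventually_ne (htp j)
    have e2 : ∀ᶠ y in 𝓝 s, p y ≠ 0 := hpa.continuousAt.eventually_ne hps
    have e3 : (fun y => ph (t y, (M y x).2.2)) =ᶠ[𝓝 s] fun y => a ^ 20 * ph (t y, p y) := by
      filter_upwards [e1, e2] with y y1 y2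
      have y3 : p y = (a : ℂ) • (M y x).2.2 := by
        rw [hp]
        simp only [map_smul, Prod.smul_snd]
      have y4 : (M y x).2.2 ≠ 0 := by
        intro h0
        apply y2
        rw [y3, h0, smul_zero]
      rw [y3, (H.sm _ _ y1 y4).2 a ha]
    change lap (fun y => ph (t y, (M y x).2.2)) s < 0
    rw [lap_congr hHS e3, lap_cmul hHS _ g2]
    exact mul_neg_of_pos_of_neg (pow_pos ha 20) (H.lp t p s ht hpa h1 h2 n1 n2 h3 n3)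
  · change l ^ 20 * ph (t s, (M s ((l : ℂ) • x)).2.2) = ph (t s, (M s x).2.2)
    rw [map_smul, Prod.smul_snd, Prod.smul_snd]
    exact (H.sm _ _ htp hne).2 l hl

theorem neck2 (hHS : SHS) {r m : ℕ} {ϱ T D : ℝ} {ph : ℂ × (Fin r → ℂ) → ℝ} (H : Hb m ϱ T D ph)
    (t : ℂ → ℂ) (M N : ℂ → EV (Fin r)) (s : ℂ) (x : V (Fin r)) (ht : AnalyticAt ℂ t s)
    (hM : AnalyticAt ℂ M s) (hN : AnalyticAt ℂ N s) (h1 : ∀ j : Fin m, ϱ ≤ ‖t s - tp j‖)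
    (h2 : ‖t s‖ ≤ T) (h3 : deriv t s ≠ 0) (a : ℝ) (ha : 0 < a) (p : ℂ → Fin r → ℂ)
    (hp : p = fun y => (M y (N y ((a : ℂ) • x))).2.2) (hpa : AnalyticAt ℂ p s)
    (n1 : 1 / 4 ≤ nsq (p s)) (n2 : nsq (p s) ≤ 4) (n3 : ‖deriv p s‖ ≤ D * ‖deriv t s‖) :
    (M s (N s x)).2.2 ≠ 0 ∧ Wt (fun q => ph (t q.1, (M q.1 (N q.1 q.2)).2.2)) s x :=
  neck hHS H t (fun y => M y * N y) s x ht (hM.mul hN) h1 h2 h3 a ha p hp hpa n1 n2 n3

/-- Inversion of the variable. -/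
theorem Wt.inv (hLV : SLV) {ι : Type} [Fintype ι] {f : ℂ × V ι → ℝ} {s : ℂ} {x : V ι} (hs : s ≠ 0)
    (h : Wt f s⁻¹ x) : Wt (fun q => f (q.1⁻¹, q.2)) s x := by
  obtain ⟨h1, h2, h3, h4⟩ := h
  have ai : AnalyticAt ℂ (fun y : ℂ => y⁻¹) s := analyticAt_id.inv hs
  refine ⟨?_, h2, ?_, h4⟩
  · have i1 : ContDiffAt ℂ ∞ (fun q : ℂ × V ι => (q.1⁻¹, q.2)) (s, x) :=
      (contDiffAt_fst.inv hs).prodMk contDiffAt_snd
    exact ContDiffAt.comp (g := f) (s, x) h1 (i1.restrict_scalars ℝ)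
  · have g2 : ContDiffAt ℝ 2 (fun y => f (y, x)) s⁻¹ :=
      ContDiffAt.comp (g := f) s⁻¹ (h1.of_le two_le) (contDiffAt_id.prodMk contDiffAt_const)
    have e := hLV.one (fun y => f (y, x)) (fun y => y⁻¹) s ai g2
    change lap (fun y => f (y⁻¹, x)) s < 0
    rw [e]
    refine mul_neg_of_pos_of_neg (pow_pos (norm_pos_iff.2 ?_) 2) h3
    rw [deriv_inv]
    exact neg_ne_zero.2 (inv_ne_zero (pow_ne_zero 2 hs))

/-- The function near infinity. -/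
theorem wt_phi0 (hHS : SHS) (hLV : SLV) {ι : Type} [Fintype ι] (s : ℂ) (hs : ‖s‖ < 1) (x : V ι)
    (hx : x ∈ cone ι) : Wt phi0 s x := by
  have hx0 : 0 < x.1.re := hx.2.2
  have nq : ContDiff ℝ ∞ fun y : ℂ => ‖y‖ ^ 2 := contDiff_norm_sq ℝ
  refine ⟨?_, ?_, ?_, fun l hl => ?_⟩
  · have i1 : ContDiffAt ℝ ∞ (fun q : ℂ × V ι => q.2.1.re) (s, x) :=
      ContDiffAt.comp (g := reCLM) (s, x) reCLM.contDiff.contDiffAt contDiffAt_snd.fst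
    have i2 : ContDiffAt ℝ ∞ (fun q : ℂ × V ι => ‖q.1‖ ^ 2) (s, x) :=
      ContDiffAt.comp (g := fun y : ℂ => ‖y‖ ^ 2) (s, x) nq.contDiffAt contDiffAt_fst
    exact ((i1.pow 20).inv (pow_ne_zero 20 hx0.ne')).mul (contDiffAt_const.sub i2)
  · have : ‖s‖ ^ 2 < 1 := pow_lt_one₀ (norm_nonneg s) hs two_ne_zero
    exact mul_pos (inv_pos.2 (pow_pos hx0 20)) (by simp only; linarith)
  · have n2 : ContDiffAt ℝ 2 (fun y : ℂ => ‖y‖ ^ 2) s := nq.contDiffAt.of_le two_le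
    have e1 : lap (fun y : ℂ => ‖y‖ ^ 2) s = 4 := by
      have an : AnalyticAt ℂ (fun (q : ℂ) (_ : Unit) => q) s :=
        analyticAt_pi_iff.2 fun _ => analyticAt_id
      have e := (hLV.nsq ℂ Unit (fun q _ => q) s 1 an).2.1
      have d : HasFDerivAt (fun (q : ℂ) (_ : Unit) => q)
          (ContinuousLinearMap.pi fun _ => ContinuousLinearMap.id ℂ ℂ) s :=
        hasFDerivAt_pi.2 fun _ => hasFDerivAt_id s
      rw [d.fderiv] at e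
      simpa [nsq, lap] using e
    have e2 : lap (fun y : ℂ => 2 - ‖y‖ ^ 2) s = -4 := by
      have k := fun v => (hHS.add ℂ (fun _ => (2 : ℝ)) (fun y : ℂ => ‖y‖ ^ 2) s v
        contDiffAt_const n2).2.1
      have z := fun v => (hHS.cmul ℂ (fun y : ℂ => ‖y‖ ^ 2) 2 s v n2).2.2
      simp only [lap, lev] at e1 ⊢
      rw [k, k, z, z]
      linarith
    change lap (fun y : ℂ => (x.1.re ^ 20)⁻¹ * (2 - ‖y‖ ^ 2)) s < 0
    rw [lap_cmul hHS _ (contDiffAt_const.sub n2), e2]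
    exact mul_neg_of_pos_of_neg (inv_pos.2 (pow_pos hx0 20)) (by norm_num)
  · simp only [phi0, Prod.smul_fst, smul_eq_mul, re_ofReal_mul, mul_pow]
    field_simp

theorem an_rot {ι : Type} [Fintype ι] (c S : ℝ) (w : ι → ℂ) {s : ℂ} (hs : s ≠ 0) :
    AnalyticAt ℂ (rot c S w) s :=
  (analyticAt_const.add (analyticAt_id.smul analyticAt_const)).add
    ((analyticAt_id.inv hs).smul analyticAt_const)

theorem an_dg {ι : Type} [Fintype ι] {s : ℂ} (hs : s ≠ 0) : AnalyticAt ℂ (dg : ℂ → EV ι) s :=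
  (analyticAt_const.add (analyticAt_id.smul analyticAt_const)).add
    ((analyticAt_id.inv hs).smul analyticAt_const)

theorem sph (hHS : SHS) (hLV : SLV) (hGR : SGR) (hCE : SCE) (hHB : SHB) (hNC : SNC) (hNI : SNI)
    (hDV : SDV) (hSM : SSM) (hGU : SGU) : SPH := by
  obtain ⟨η, C₀, hη, hC₀, hcell⟩ := hCE
  obtain ⟨r₁, hr₁⟩ := hSM η C₀ hη hC₀
  refine ⟨max r₁ 512, fun r hr m _ hrm C => ?_⟩
  have hm : 512 ≤ m := le_trans (le_trans (le_max_right _ _) hr) hrm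
  have hm' : (512 : ℝ) ≤ m := by exact_mod_cast hm
  have hsum := hr₁ r (le_trans (le_max_left _ _) hr) m
  set l : ℝ := r * η / 2 with hl
  set Cs : ℝ := C₀ * (4 * r + 1) ^ 48 with hCs
  have hl0 : 0 ≤ l := by positivity
  have hCs0 : 0 ≤ Cs := by positivity
  obtain ⟨K₁, hK₁⟩ := hNC r m l η Cs C hη hl0 hCs0
  obtain ⟨K₂, hK₂⟩ := hNI r m l η Cs C hm
  obtain ⟨ϱ, hϱ, hϱ5, evNC⟩ := hK₁ (max K₁ K₂) (le_max_left _ _)
  obtain ⟨T, hT, evNI⟩ := hK₂ (max K₁ K₂) (le_max_right _ _)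
  obtain ⟨C₁, evDV⟩ := hDV r m C ϱ T hϱ
  obtain ⟨hb1, hb2⟩ := hHB r m l η Cs (max K₁ K₂)
  filter_upwards [evNC, evNI, evDV, hb2 ϱ T C₁ hϱ, eventually_ge_atTop 1] with n nc ni dv hb hn
    c S om F Fi Fr rep fr
  have hn0 : n ≠ 0 := by omega
  have hnR : (1 : ℝ) ≤ n := by exact_mod_cast hn
  have hnC : (n : ℂ) ≠ 0 := by exact_mod_cast hn0
  have rb : RepB r m c S om := rep.toRepB
  set ph := phh n l η Cs (max K₁ K₂) c S om with hph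
  have H : Hb m ϱ T (C₁ / n) ph :=
    ⟨hϱ, hb1 n c S om rb, (hb c S om rb).1, (hb c S om rb).2⟩
  have dv' := dv c S om F Fi Fr rb fr
  have he0 : (0 : ℝ) < 1 / (2 * n) := by positivity
  have he1 : 1 / (2 * (n : ℝ)) < 1 := by
    rw [div_lt_one (by positivity)]
    linarith
  -- the neck of a cell
  have nk1 : ∀ (j : Fin m) (s : ℂ), ϱ ≤ ‖s ^ n‖ → ‖s ^ n‖ < 1 / 4 → ∀ x ∈ cone (Fin r),
      (F (tp j + s ^ n) (rot c S (om j) s x)).2.2 ≠ 0 ∧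
      Wt (fun q => ph (tp j + q.1 ^ n, (F (tp j + q.1 ^ n) (rot c S (om j) q.1 q.2)).2.2)) s x := by
    intro j s h1 h2 x hx
    have hs : s ≠ 0 := by
      rintro rfl
      rw [zero_pow hn0, norm_zero] at h1
      linarith
    obtain ⟨a, ha, hp⟩ := (dv' x hx).1 j s h1 h2
    obtain ⟨p1, p2, p3, p4⟩ := hp _ rfl
    have ht : AnalyticAt ℂ (fun y : ℂ => tp j + y ^ n) s :=
      analyticAt_const.add (analyticAt_id.pow n)
    have hd : deriv (fun y : ℂ => tp j + y ^ n) s = n * s ^ (n - 1) :=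
      ((hasDerivAt_pow n s).const_add (tp j)).deriv
    have hF : AnalyticAt ℂ (fun y : ℂ => F (tp j + y ^ n)) s :=
      AnalyticAt.comp (g := F) (f := fun y : ℂ => tp j + y ^ n)
        (fr.an j _ (by rw [add_sub_cancel_left]; linarith)).1 ht
    refine neck2 hHS H (fun y => tp j + y ^ n) (fun y => F (tp j + y ^ n)) (rot c S (om j)) s x ht
      hF (an_rot c S (om j) hs) (fun i => ?_) ?_ ?_ a ha _ rfl p1 p2 p3 (by rw [hd]; exact p4)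
    · by_cases hi : i = j
      · rw [hi, add_sub_cancel_left]
        exact h1
      · have d1 := tp_dist i j hi
        have d2 : ‖tp j - tp i‖ ≤ ‖tp j + s ^ n - tp i‖ + ‖s ^ n‖ := by
          have := norm_sub_le (tp j + s ^ n - tp i) (s ^ n)
          rwa [show tp j + s ^ n - tp i - s ^ n = tp j - tp i by ring] at this
        linarith
    · have := norm_add_le (tp j) (s ^ n)
      have := tp_norm j
      linarith
    · rw [hd]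
      exact mul_ne_zero hnC (pow_ne_zero _ hs)
  -- the neck at infinity
  have nk2 : ∀ τ : ℂ, (m : ℝ) + 2 < ‖τ ^ n‖ → ‖τ ^ n‖ ≤ T → ∀ x ∈ cone (Fin r),
      (F (τ ^ n) (dg (τ ^ (4 * m)) x)).2.2 ≠ 0 ∧
      Wt (fun q => ph (q.1 ^ n, (F (q.1 ^ n) (dg (q.1 ^ (4 * m)) q.2)).2.2)) τ x := by
    intro s h1 h2 x hx
    have hs : s ≠ 0 := by
      rintro rfl
      rw [zero_pow hn0, norm_zero] at h1
      linarith
    obtain ⟨a, ha, hp⟩ := (dv' x hx).2.1 s h1 h2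
    obtain ⟨p1, p2, p3, p4⟩ := hp _ rfl
    have ht : AnalyticAt ℂ (fun y : ℂ => y ^ n) s := analyticAt_id.pow n
    have hd : deriv (fun y : ℂ => y ^ n) s = n * s ^ (n - 1) := (hasDerivAt_pow n s).deriv
    have hF : AnalyticAt ℂ (fun y : ℂ => F (y ^ n)) s :=
      AnalyticAt.comp (g := F) (f := fun y : ℂ => y ^ n) (fr.ani _ (by linarith)).1 ht
    have hG : AnalyticAt ℂ (fun y : ℂ => (dg (y ^ (4 * m)) : EV (Fin r))) s :=
      AnalyticAt.comp (g := dg) (f := fun y : ℂ => y ^ (4 * m)) (an_dg (pow_ne_zero _ hs))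
        (analyticAt_id.pow _)
    refine neck2 hHS H (fun y => y ^ n) (fun y => F (y ^ n)) (fun y => dg (y ^ (4 * m))) s x ht
      hF hG (fun i => ?_) h2 ?_ a ha _ rfl p1 p2 p3 (by rw [hd]; exact p4)
    · have d1 := tp_norm i
      have d2 := norm_sub_norm_le (s ^ n) (tp i)
      linarith
    · rw [hd]
      exact mul_ne_zero hnC (pow_ne_zero _ hs)
  -- the hub
  have nk3 : ∀ (t₀ : ℂ) (Y : ℂ → EV (Fin r)), (∀ j : Fin m, 1 / 4 ≤ ‖t₀ - tp j‖) → ‖t₀‖ ≤ m + 2 →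
      (∀ t ∈ ball t₀ (1 / 32), AnalyticAt ℂ Y t ∧ ‖Y t - 1‖ ≤ C / n) →
      ∀ t ∈ ball t₀ (1 / 64), ∀ x ∈ cone (Fin r), (∀ j : Fin m, ϱ ≤ ‖t - tp j‖) ∧
        (Y t x).2.2 ≠ 0 ∧ Wt (fun q => ph (q.1, (Y q.1 q.2).2.2)) t x := by
    intro t₀ Y h1 h2 hY t ht x hx
    obtain ⟨a, ha, hp⟩ := (dv' x hx).2.2 t₀ Y hY t ht
    obtain ⟨p1, p2, p3, p4⟩ := hp _ rfl
    have ht' : ‖t - t₀‖ < 1 / 64 := mem_ball_iff_norm.1 ht
    have h3 : ∀ j : Fin m, ϱ ≤ ‖t - tp j‖ := fun j => by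
      have d1 := h1 j
      have d2 := norm_sub_le (t - tp j) (t - t₀)
      rw [show t - tp j - (t - t₀) = t₀ - tp j by ring] at d2
      linarith
    refine ⟨h3, neck hHS H (fun y => y) Y t x analyticAt_id
      (hY t (ball_subset_ball (by norm_num) ht)).1 h3 ?_ (by simp) a ha _ rfl p1 p2 p3
      (by simpa using p4)⟩
    have d2 := norm_add_le (t - t₀) t₀
    rw [sub_add_cancel] at d2
    linarith
  -- gluing on the cells
  have g1 : ∀ j : Fin m, ∃ f : ℂ × V (Fin r) → ℝ,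
      (∀ s : ℂ, ‖s ^ n‖ < 1 / 4 → ∀ x ∈ cone (Fin r), Wt f s x) ∧
      ∀ s : ℂ, 1 / 5 < ‖s ^ n‖ → ‖s ^ n‖ < 1 / 4 → ∀ x ∈ cone (Fin r),
        f (s, x) = ph (tp j + s ^ n, (F (tp j + s ^ n) (rot c S (om j) s x)).2.2) := by
    intro j
    obtain ⟨f₀, hf₀⟩ := hcell (Fin r) c S (om j) (rb.ax j) rb.hS
    have hf : CellB c S (om j) η Cs f₀ := cellB_mono hf₀
      (mul_le_mul_of_nonneg_left (pow_le_pow_left₀ (rb.ax j).hc.le rb.hc 48) hC₀)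
    obtain ⟨R₁, a1, b1, c1⟩ := root n hn0 ϱ hϱ
    obtain ⟨R₂, a2, b2, c2⟩ := root n hn0 (1 / 5) (by norm_num)
    obtain ⟨R₃, a3, b3, c3⟩ := root n hn0 (1 / 4) (by norm_num)
    have h31 : R₃ < 1 := root_lt (n := n) one_pos (by rw [b3, one_pow]; norm_num)
    have nc' := nc c S om F rb fr.near j f₀ hf
    obtain ⟨f, k1, k2⟩ := hGU (Fin r) f₀
      (fun q => ph (tp j + q.1 ^ n, (F (tp j + q.1 ^ n) (rot c S (om j) q.1 q.2)).2.2))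
      (1 / (2 * n)) R₁ R₂ R₃ he0 he1 a1 (root_lt a2 (by rw [b1, b2]; exact hϱ5))
      (root_lt a3 (by rw [b2, b3]; norm_num))
      (fun s hs x hx => hf.sm s (hs.trans h31) x hx)
      (fun s h1 h2 x hx => (nk1 j s ((c1 s).2.1.1 h1) ((c3 s).1.1 h2) x hx).2)
      (fun s h1 x hx => (nc' x hx s).2 ((c1 s).2.2 h1))
      (fun s h1 h2 x hx => (nc' x hx s).1 ((c2 s).2.1.1 h1) ((c3 s).1.1 h2).le)
    exact ⟨f, fun s hs x hx => k1 s ((c3 s).1.2 hs) x hx,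
      fun s h1 h2 x hx => k2 s ((c2 s).2.1.2 h1.le) ((c3 s).1.2 h2) x hx⟩
  choose fc fc1 fc2 using g1
  -- gluing at infinity
  have g2 : ∃ f : ℂ × V (Fin r) → ℝ,
      (∀ s : ℂ, ((m : ℝ) + 2) * ‖s ^ n‖ < 1 → ∀ x ∈ cone (Fin r), Wt f s x) ∧
      ∀ τ : ℂ, (m : ℝ) + 2 < ‖τ ^ n‖ → ‖τ ^ n‖ < m + 3 → ∀ x ∈ cone (Fin r),
        f (τ⁻¹, x) = ph (τ ^ n, (F (τ ^ n) (dg (τ ^ (4 * m)) x)).2.2) := by
    have hT0 : 0 < T := by linarith
    have hm2 : (0 : ℝ) < m + 2 := by linarith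
    have hm3 : (0 : ℝ) < m + 3 := by linarith
    obtain ⟨R₁, a1, b1, c1⟩ := root n hn0 T⁻¹ (inv_pos.2 hT0)
    obtain ⟨R₂, a2, b2, c2⟩ := root n hn0 ((m : ℝ) + 3)⁻¹ (inv_pos.2 hm3)
    obtain ⟨R₃, a3, b3, c3⟩ := root n hn0 ((m : ℝ) + 2)⁻¹ (inv_pos.2 hm2)
    have h31 : R₃ < 1 := root_lt (n := n) one_pos
      (by rw [b3, one_pow]; exact inv_lt_one_of_one_lt₀ (by linarith))
    have h12 : R₁ < R₂ := root_lt a2 (by rw [b1, b2]; exact (inv_lt_inv₀ hT0 hm3).2 hT)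
    have ni' := ni c S om F rb fr.near (hsum n c S om rep)
    have iv : ∀ s : ℂ, ‖s⁻¹ ^ n‖ = ‖s ^ n‖⁻¹ := fun s => by rw [inv_pow, norm_inv]
    have nz : ∀ s : ℂ, R₁ ≤ ‖s‖ → s ≠ 0 ∧ 0 < ‖s ^ n‖ := fun s h => by
      have : s ≠ 0 := norm_pos_iff.1 (a1.trans_le h)
      exact ⟨this, norm_pos_iff.2 (pow_ne_zero _ this)⟩
    have lo : ∀ s : ℂ, R₁ ≤ ‖s‖ → ‖s‖ < R₃ → (m : ℝ) + 2 < ‖s⁻¹ ^ n‖ := fun s h1 h2 => by
      rw [iv]
      exact (lt_inv_comm₀ hm2 (nz s h1).2).2 ((c3 s).1.1 h2)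
    obtain ⟨f, k1, k2⟩ := hGU (Fin r) phi0
      (fun q => ph (q.1⁻¹ ^ n, (F (q.1⁻¹ ^ n) (dg (q.1⁻¹ ^ (4 * m)) q.2)).2.2))
      (1 / (2 * n)) R₁ R₂ R₃ he0 he1 a1 h12
      (root_lt a3 (by rw [b2, b3]; exact (inv_lt_inv₀ hm3 hm2).2 (by linarith)))
      (fun s hs x hx => wt_phi0 hHS hLV s (hs.trans h31) x hx)
      (fun s h1 h2 x hx => Wt.inv hLV (nz s h1).1 (nk2 s⁻¹ (lo s h1 h2) (by
        rw [iv]
        exact (inv_le_comm₀ (nz s h1).2 hT0).2 ((c1 s).2.1.1 h1)) x hx).2)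
      (fun s h1 x hx => by
        have := (ni' x hx s⁻¹).2 (by rw [iv, (c1 s).2.2 h1, inv_inv])
        rwa [inv_inv] at this)
      (fun s h1 h2 x hx => by
        have h0 : R₁ ≤ ‖s‖ := h12.le.trans h1
        have := (ni' x hx s⁻¹).1 (lo s h0 h2).le (by
          rw [iv]
          exact (inv_le_comm₀ (nz s h0).2 hm3).2 ((c2 s).2.1.1 h1))
        rwa [inv_inv] at this)
    refine ⟨f, fun s hs x hx => k1 s ((c3 s).1.2 ?_) x hx, fun τ h1 h2 x hx => ?_⟩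
    · rw [← one_div, lt_div_iff₀' hm2]
      exact hs
    · have h0 : 0 < ‖τ ^ n‖ := hm2.trans h1
      have := k2 τ⁻¹ ((c2 _).2.1.2 (by rw [iv]; exact (inv_le_inv₀ hm3 h0).2 h2.le))
        ((c3 _).1.2 (by rw [iv]; exact (inv_lt_inv₀ h0 hm2).2 h1)) x hx
      simpa only [inv_inv] using this
  obtain ⟨fi, fi1, fi2⟩ := g2
  refine ⟨fc, fi, ph, fc1, fi1, fun t₀ h1 h2 => ?_, fun t M hM h1 h2 x hx => ?_, fc2, fi2⟩
  · obtain ⟨Y, hY⟩ := fr.hub t₀ h1 h2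
    refine ⟨Y, fun t ht => ?_⟩
    have ht' := hY t (ball_subset_ball (by norm_num) ht)
    refine ⟨ht'.1, ht'.2.1, fun x hx => ?_⟩
    obtain ⟨k1, k2, k3⟩ := nk3 t₀ Y h1 h2 (fun y hy => ⟨(hY y hy).1, (hY y hy).2.2⟩) t ht x hx
    exact ⟨(H.sm _ _ (H.ne k1) k2).1, k3.2.2.1⟩
  · have h3 : ∀ j : Fin m, ϱ ≤ ‖t - tp j‖ := fun j => by linarith [h1 j]
    have hne : (M x).2.2 ≠ 0 := by
      by_cases k1 : ∃ j : Fin m, ‖t - tp j‖ < 1 / 4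
      · obtain ⟨j, hj⟩ := k1
        obtain ⟨s, hs⟩ := IsAlgClosed.exists_pow_nat_eq (t - tp j) (Nat.pos_of_ne_zero hn0)
        have hs0 : s ≠ 0 := by
          rintro rfl
          have := h1 j
          rw [← hs, zero_pow hn0, norm_zero] at this
          linarith
        have e : tp j + s ^ n = t := by rw [hs]; ring
        have f1 := fr.cell j s hs0 (by rw [hs]; linarith)
        obtain ⟨G, hG, rfl⟩ := fr.uniq _ _ M f1 (by rw [e]; exact hM)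
        exact (nk1 j s (by rw [hs]; exact h3 j) (by rw [hs]; exact hj) (G x) (hG.fut x hx)).1
      · by_cases k2 : (m : ℝ) + 2 < ‖t‖
        · obtain ⟨s, rfl⟩ := IsAlgClosed.exists_pow_nat_eq t (Nat.pos_of_ne_zero hn0)
          obtain ⟨G, hG, rfl⟩ := fr.uniq _ _ M (fr.far s (by linarith)) hM
          exact (nk2 s k2 (by linarith) (G x) (hG.fut x hx)).1
        · push Not at k1 k2
          obtain ⟨Y, hY⟩ := fr.hub t k1 k2
          obtain ⟨G, hG, rfl⟩ := fr.uniq _ _ M (hY t (mem_ball_self (by norm_num))).2.1 hM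
          exact (nk3 t Y k1 k2 (fun y hy => ⟨(hY y hy).1, (hY y hy).2.2⟩) t
            (mem_ball_self (by norm_num)) (G x) (hG.fut x hx)).2.1
    refine ⟨hne, H.ps _ _ h3 (by linarith) hne, fun a ha => ?_⟩
    rw [map_smul, Prod.smul_snd, Prod.smul_snd]
    exact (H.sm _ _ (H.ne h3) hne).2 a ha

end Pool.Agent.MP_fcd29e_an.H89
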